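import Pool.Agent.helper96.SV.SpecA

/-!
# Project sv: (MP_b5a345_ag), part A, module ITR
-/

set_option autoImplicit false

namespace Pool.Agent.SVA

open Polynomial Module

theorem ITR (hKEY : KEY_stmt) : ITR_stmt := by
  intro K _ _ _ m hK hm n
  induction n with
  | zero =>
    intro e l P hl hP hx h0 hn
    have h0' : e + 0 * DD m = e := by omega
    exact ⟨0, l, P, le_rfl, by omega, rfl, hl, hP, by rw [h0'], by rw [h0']; exact h0,
      by rw [h0']; omega⟩
  | succ n ih =>
    intro e l P hl hP hx h0 hn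
    by_cases hc : finrank ℂ (NN e (P :: l)) ≤ finrank ℂ (NN e l) - DD m
    · have h0' : e + 0 * DD m = e := by omega
      exact ⟨0, l, P, Nat.zero_le _, by omega, rfl, hl, hP, by rw [h0'], by rw [h0']; exact h0,
        by rw [h0']; exact hc⟩
    · obtain ⟨l1, P1, h1, h2, h3, h4, h5, h6, h7⟩ := hKEY hK hm e l P hl hP hx h0
        (by omega) (by omega)
      have hx' : vv m * (e + DD m) = finrank ℂ (NN (e + DD m) l1) + l1.length * DD m := by
        rw [h5, h1, mul_add, hx]
        ring
      obtain ⟨L, l2, P2, g1, g2, g3, g4, g5, g6, g7, g8⟩ := ih (e + DD m) l1 P1 h3 h4 hx' h6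
        (by rw [h5]; omega)
      have he : e + DD m + L * DD m = e + (L + 1) * DD m := by ring
      rw [he] at g6 g7 g8
      refine ⟨L + 1, l2, P2, by omega, ?_, g3.trans h2, g4, g5, g6.trans h5, g7, ?_⟩
      · rw [g2, h1]
        ring
      · rw [h5] at g8
        exact g8

end Pool.Agent.SVA
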