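import Pool.Agent.helper65.SV.SpecE

/-!
# Project sv: (MP_b5a345_ag), module PGK: the twisted conditions for large twist
-/

set_option autoImplicit false
set_option linter.unusedSectionVars false

namespace Pool.Agent.SV

open Module Polynomial

section
variable {K : Type} [Fintype K] [DecidableEq K] {n : K → ℕ}

/-- the multiplicity of the zero `t l` at the cell `x` -/
def PGK_m {r : ℕ} (c γ : Fin r → Cell n) (x : Cell n) (l : Fin r) : ℕ :=
  (if hammingDist (c l) x ≤ 1 then 1 else 0) + if c l - γ l = x then 1 else 0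

theorem PGK_wt {r : ℕ} (c γ : Fin r → Cell n) (x : Cell n) :
    wt c γ x = ∑ l, PGK_m c γ x l := by
  unfold wt PGK_m
  rw [Finset.sum_add_distrib, Finset.card_filter, Finset.card_filter]

/-- the polynomial of the zeros -/
noncomputable def PGK_Q {r : ℕ} (c γ : Fin r → Cell n) (t : Fin r → ℂ) (x : Cell n) :
    Polynomial ℂ := ∏ l, (X - C (t l)) ^ PGK_m c γ x l

theorem PGK_monic {r : ℕ} (c γ : Fin r → Cell n) (t : Fin r → ℂ) (x : Cell n) :
    (PGK_Q c γ t x).Monic :=
  monic_prod_of_monic _ _ fun l _ => (monic_X_sub_C _).pow _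

theorem PGK_deg {r : ℕ} (c γ : Fin r → Cell n) (t : Fin r → ℂ) (x : Cell n) :
    (PGK_Q c γ t x).natDegree = wt c γ x := by
  unfold PGK_Q
  rw [natDegree_prod_of_monic _ _ fun l _ => (monic_X_sub_C _).pow _, PGK_wt]
  refine Finset.sum_congr rfl fun l _ => ?_
  rw [(monic_X_sub_C (t l)).natDegree_pow, natDegree_X_sub_C, mul_one]

/-- the multiples of `Q` in `degreeLT E` -/
def PGK_Z (E : ℕ) (Q : Polynomial ℂ) : Submodule ℂ (Polynomial ℂ) where
  carrier := {p | p ∈ degreeLT ℂ E ∧ Q ∣ p}
  add_mem' := fun ha hb => ⟨Submodule.add_mem _ ha.1 hb.1, dvd_add ha.2 hb.2⟩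
  zero_mem' := ⟨Submodule.zero_mem _, dvd_zero _⟩
  smul_mem' := fun s p hp => ⟨Submodule.smul_mem _ _ hp.1, by
    rw [smul_eq_C_mul]
    exact Dvd.dvd.mul_left hp.2 _⟩

theorem PGK_Zle (E : ℕ) (Q : Polynomial ℂ) : PGK_Z E Q ≤ degreeLT ℂ E := fun _ hp => hp.1

theorem PGK_finrank (E : ℕ) (Q : Polynomial ℂ) (hQ : Q.Monic) :
    finrank ℂ ↥(PGK_Z E Q) ≤ E - Q.natDegree := by
  have h1 : PGK_Z E Q ≤ (degreeLT ℂ (E - Q.natDegree)).map (LinearMap.mulLeft ℂ Q) := by
    rintro p ⟨hp, q, rfl⟩
    refine ⟨q, ?_, rfl⟩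
    rw [SetLike.mem_coe, mem_degreeLT] at *
    by_cases hq : q = 0
    · subst hq
      simp
    · rw [degree_mul, degree_eq_natDegree hq, degree_eq_natDegree hQ.ne_zero] at hp
      rw [degree_eq_natDegree hq]
      have h2 : Q.natDegree + q.natDegree < E := by exact_mod_cast hp
      have h3 : q.natDegree < E - Q.natDegree := by omega
      exact_mod_cast h3
  haveI : Module.Finite ℂ ↥(degreeLT ℂ (E - Q.natDegree)) :=
    Module.Finite.equiv (degreeLTEquiv ℂ (E - Q.natDegree)).symm
  have h4 : finrank ℂ ↥(degreeLT ℂ (E - Q.natDegree)) = E - Q.natDegree := by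
    rw [(degreeLTEquiv ℂ (E - Q.natDegree)).finrank_eq]
    simp
  calc finrank ℂ ↥(PGK_Z E Q) ≤
      finrank ℂ ↥((degreeLT ℂ (E - Q.natDegree)).map (LinearMap.mulLeft ℂ Q)) :=
        Submodule.finrank_mono h1
    _ ≤ finrank ℂ ↥(degreeLT ℂ (E - Q.natDegree)) := Submodule.finrank_map_le _ _
    _ = _ := h4

/-- the linear conditions -/
noncomputable def PGK_B (n : K → ℕ) (E : ℕ) {r : ℕ} (c γ : Fin r → Cell n) (t : Fin r → ℂ) (ε : ℂ) :
    (Cell n → ↥(degreeLT ℂ E)) →ₗ[ℂ] ((Fin r × Cell n) ⊕ Fin r → ℂ) where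
  toFun G := Sum.elim
    (fun p => if hammingDist (c p.1) p.2 ≤ 1 then ((G p.2 : Polynomial ℂ)).eval (t p.1) else 0)
    (fun l => if γ l = 0 then (derivative (G (c l) : Polynomial ℂ)).eval (t l)
      else ε * (derivative (G (c l) : Polynomial ℂ)).eval (t l) +
        ((G (c l - γ l) : Polynomial ℂ)).eval (t l))
  map_add' G H := by
    funext j
    rcases j with p | l
    · simp only [Sum.elim_inl, Pi.add_apply, Submodule.coe_add, eval_add]
      split_ifs <;> simp
    · simp only [Sum.elim_inr, Pi.add_apply, Submodule.coe_add, derivative_add, eval_add]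
      split_ifs <;> ring
  map_smul' s G := by
    funext j
    rcases j with p | l
    · simp only [Sum.elim_inl, Pi.smul_apply, Submodule.coe_smul, eval_smul, smul_eq_mul,
        RingHom.id_apply]
      split_ifs <;> simp
    · simp only [Sum.elim_inr, Pi.smul_apply, Submodule.coe_smul, derivative_smul, eval_smul,
        smul_eq_mul, RingHom.id_apply]
      split_ifs <;> ring

theorem PGK_mem (E : ℕ) {r : ℕ} (c γ : Fin r → Cell n) (t : Fin r → ℂ) (ε : ℂ)
    (G : Cell n → ↥(degreeLT ℂ E)) : G ∈ LinearMap.ker (PGK_B n E c γ t ε) ↔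
      (fun x => (G x : Polynomial ℂ)) ∈ TwG n E c γ t ε := by
  rw [LinearMap.mem_ker, mem_TwG]
  constructor
  · intro h
    refine ⟨fun x => (G x).2, fun l => ⟨fun x hx => ?_, fun hγ => ?_, fun hγ => ?_⟩⟩
    · have := congrFun h (Sum.inl (l, x))
      simpa [PGK_B, hx] using this
    · have := congrFun h (Sum.inr l)
      simpa [PGK_B, hγ] using this
    · have := congrFun h (Sum.inr l)
      simpa [PGK_B, hγ] using this
  · rintro ⟨-, h⟩
    funext j
    rcases j with ⟨l, x⟩ | l
    · by_cases hx : hammingDist (c l) x ≤ 1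
      · simpa [PGK_B, hx] using (h l).1 x hx
      · simp [PGK_B, hx]
    · by_cases hγ : γ l = 0
      · simpa [PGK_B, hγ] using (h l).2.1 hγ
      · simpa [PGK_B, hγ] using (h l).2.2 hγ

theorem PGK_dvd (E : ℕ) {r : ℕ} (c γ : Fin r → Cell n) (t : Fin r → ℂ)
    (ht : Function.Injective t) (hγ : ∀ l, γ l = 0 ∨ 2 ≤ hammingNorm (γ l))
    (G : Cell n → Polynomial ℂ) (hG : G ∈ TwG n E c γ t 0) (x : Cell n) :
    PGK_Q c γ t x ∣ G x := by
  rw [mem_TwG] at hG
  unfold PGK_Q
  refine Finset.prod_dvd_of_coprime ?_ ?_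
  · intro i _ j _ hij
    refine IsCoprime.pow ?_
    exact isCoprime_X_sub_C_of_isUnit_sub (sub_ne_zero.mpr (fun h => hij (ht h))).isUnit
  · intro l _
    obtain ⟨h1, h2, h3⟩ := hG.2 l
    unfold PGK_m
    by_cases hd : hammingDist (c l) x ≤ 1
    · have hroot := h1 x hd
      by_cases he : c l - γ l = x
      · -- then `γ l = 0`
        have hγ0 : γ l = 0 := by
          rcases hγ l with h | h
          · exact h
          · exfalso
            have h4 : hammingDist (c l) x = hammingNorm (γ l) := by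
              rw [← he, hammingDist_comm, hammingDist_eq_hammingNorm]
              congr 1
              abel
            omega
        have hx : c l = x := by rw [← he, hγ0, sub_zero]
        have h5 := h2 hγ0
        rw [hx] at h5
        simp only [hd, he, if_true]
        have h6 : (X - C (t l)) ∣ G x := dvd_iff_isRoot.mpr hroot
        obtain ⟨q, hq⟩ := h6
        have h7 : q.eval (t l) = 0 := by
          rw [hq] at h5
          simpa [derivative_mul] using h5
        have h8 : (X - C (t l)) ∣ q := dvd_iff_isRoot.mpr h7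
        obtain ⟨q', hq'⟩ := h8
        refine ⟨q', ?_⟩
        rw [hq, hq']
        ring
      · simp only [hd, he, if_true, if_false, add_zero, pow_one]
        exact dvd_iff_isRoot.mpr hroot
    · by_cases he : c l - γ l = x
      · have hγ0 : γ l ≠ 0 := by
          intro h
          apply hd
          rw [← he, h, sub_zero, hammingDist_self]
          exact Nat.zero_le _
        have h5 := h3 hγ0
        rw [zero_mul, zero_add, he] at h5
        simp only [hd, he, if_true, if_false, zero_add, pow_one]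
        exact dvd_iff_isRoot.mpr h5
      · simp [hd, he]

end

theorem PGK (hT1 : T1_stmt) : PGK_stmt := by
  intro K _ _ n E r c γ t ht hγ
  classical
  haveI : Module.Finite ℂ ↥(degreeLT ℂ E) := Module.Finite.equiv (degreeLTEquiv ℂ E).symm
  have hpoly : ∀ (G : Cell n → ↥(degreeLT ℂ E)) j, PolyFun (fun ε => PGK_B n E c γ t ε G j) := by
    intro G j
    rcases j with p | l
    · exact PolyFun.const _
    · by_cases h : γ l = 0
      · simp only [PGK_B, LinearMap.coe_mk, AddHom.coe_mk, Sum.elim_inr, h, if_true]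
        exact PolyFun.const _
      · simp only [PGK_B, LinearMap.coe_mk, AddHom.coe_mk, Sum.elim_inr, h, if_false]
        exact (PolyFun.id.mul (PolyFun.const _)).add (PolyFun.const _)
  have h0 : finrank ℂ ↥(LinearMap.ker (PGK_B n E c γ t 0)) ≤ ∑ x, (E - wt c γ x) := by
    haveI : ∀ x, Module.Finite ℂ ↥(PGK_Z E (PGK_Q c γ t x)) := fun x =>
      Submodule.finiteDimensional_of_le (PGK_Zle E _)
    let Φ : ↥(LinearMap.ker (PGK_B n E c γ t 0)) →ₗ[ℂ]
        (∀ x : Cell n, ↥(PGK_Z E (PGK_Q c γ t x))) :=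
      { toFun := fun G x => ⟨((G : Cell n → ↥(degreeLT ℂ E)) x : Polynomial ℂ),
          ((G : Cell n → ↥(degreeLT ℂ E)) x).2,
          PGK_dvd E c γ t ht hγ _ ((PGK_mem E c γ t 0 _).mp G.2) x⟩
        map_add' := fun _ _ => rfl
        map_smul' := fun _ _ => rfl }
    have hΦ : Function.Injective Φ := by
      intro G H h
      apply Subtype.ext
      funext x
      apply Subtype.ext
      have := congrArg (fun f => ((f x : ↥(PGK_Z E (PGK_Q c γ t x))) : Polynomial ℂ)) h
      exact this
    calc finrank ℂ ↥(LinearMap.ker (PGK_B n E c γ t 0)) ≤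
        finrank ℂ (∀ x : Cell n, ↥(PGK_Z E (PGK_Q c γ t x))) :=
          LinearMap.finrank_le_finrank_of_injective hΦ
      _ = ∑ x, finrank ℂ ↥(PGK_Z E (PGK_Q c γ t x)) := Module.finrank_pi_fintype ℂ
      _ ≤ ∑ x, (E - wt c γ x) := by
          refine Finset.sum_le_sum fun x _ => ?_
          have := PGK_finrank E (PGK_Q c γ t x) (PGK_monic c γ t x)
          rwa [PGK_deg] at this
  refine (hT1 (fun ε => PGK_B n E c γ t ε) hpoly _ 0 h0).subset ?_
  intro ε hε
  rw [Set.mem_ofPred_eq] at hε ⊢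
  intro hle
  apply hε
  refine le_trans ?_ hle
  let Ψ : ↥(TwG n E c γ t ε) →ₗ[ℂ] ↥(LinearMap.ker (PGK_B n E c γ t ε)) :=
    { toFun := fun G => ⟨fun x => ⟨(G : Cell n → Polynomial ℂ) x, (mem_TwG.mp G.2).1 x⟩,
        (PGK_mem E c γ t ε _).mpr G.2⟩
      map_add' := fun _ _ => rfl
      map_smul' := fun _ _ => rfl }
  have hΨ : Function.Injective Ψ := by
    intro G H h
    apply Subtype.ext
    funext x
    have := congrArg (fun f : ↥(LinearMap.ker (PGK_B n E c γ t ε)) =>
      (((f : Cell n → ↥(degreeLT ℂ E)) x : ↥(degreeLT ℂ E)) : Polynomial ℂ)) h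
    exact this
  exact LinearMap.finrank_le_finrank_of_injective hΨ

end Pool.Agent.SV
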